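import Pool.Agent.H743.JL.StmX

/-!
# JX (helper743), part MO2: the moment of a split form (helper339)
-/

set_option autoImplicit false
set_option linter.all false

open scoped Classical

namespace Pool.Agent.H339.JX

open Finset Module
open Pool.Agent.N916.MO
open Pool.Agent.H743.JL

section
variable {E0 I : Type} [AddCommGroup E0] [Module (ZMod 2) E0] [Fintype E0] [Fintype I]
  [DecidableEq I]

theorem mem_YP {AY : Submodule (ZMod 2) E0} {z : EE E0 I} :
    z ∈ YP I True AY ↔ z.1 ∈ AY ∧ z.2.1 = 0 := by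
  constructor
  · intro h; exact h trivial
  · intro h _; exact h

theorem mem_XP {AX : Submodule (ZMod 2) E0} {z : EE E0 I} :
    z ∈ XP I True AX ↔ z.1 ∈ AX ∧ z.2.2 = 0 := by
  constructor
  · intro h; exact h trivial
  · intro h _; exact h

/-- the dimension of the second half -/
theorem fr_YP (AY : Submodule (ZMod 2) E0) :
    finrank (ZMod 2) (YP I True AY : Submodule (ZMod 2) (EE E0 I)) =
      finrank (ZMod 2) AY + Fintype.card I := by
  let e : (AY × (I → ZMod 2)) ≃ₗ[ZMod 2] (YP I True AY : Submodule (ZMod 2) (EE E0 I)) :=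
    { toFun := fun p => ⟨(p.1.1, 0, p.2), mem_YP.2 ⟨p.1.2, rfl⟩⟩
      invFun := fun z => (⟨z.1.1, (mem_YP.1 z.2).1⟩, z.1.2.2)
      map_add' := fun p q => by
        refine Subtype.ext (Prod.ext rfl (Prod.ext ?_ rfl))
        exact (add_zero _).symm
      map_smul' := fun c p => by
        refine Subtype.ext (Prod.ext rfl (Prod.ext ?_ rfl))
        exact (smul_zero _).symm
      left_inv := fun p => rfl
      right_inv := fun z => by
        refine Subtype.ext (Prod.ext rfl (Prod.ext ?_ rfl))
        exact (mem_YP.1 z.2).2.symm }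
  rw [← e.finrank_eq, Module.finrank_prod, Module.finrank_fintype_fun_eq_card]

variable {B : EE E0 I →ₗ[ZMod 2] EE E0 I →ₗ[ZMod 2] ZMod 2} {AX AY : Submodule (ZMod 2) E0}

/-- the number of the vectors orthogonal to the fixed part of the first half -/
theorem card_T (hB : ∀ z, B z z = 0) (hS : Spl B AX AY)
    (hna : ∀ e : E0, (∀ w : E0, B (e, 0, 0) (w, 0, 0) = 0) →
      (∀ k, B (e, 0, 0) (fx k) = 0 ∧ B (e, 0, 0) (fy k) = 0) → e = 0) :
    (univ.filter fun z : EE E0 I => z ∈ YP I True AY ∧
      ∀ w ∈ AX, B z (w, 0, 0) = 0).card ≤ 2 ^ Fintype.card I := by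
  let L : AX →ₗ[ZMod 2] Module.Dual (ZMod 2) (YP I True AY : Submodule (ZMod 2) (EE E0 I)) :=
    { toFun := fun e => (B.flip ((e.1, 0, 0) : EE E0 I)) ∘ₗ (YP I True AY).subtype
      map_add' := fun a b => by
        refine LinearMap.ext fun z => ?_
        have h : ((a.1 + b.1, 0, 0) : EE E0 I) = (a.1, 0, 0) + (b.1, 0, 0) := by
          refine Prod.ext rfl (Prod.ext ?_ ?_)
          · exact (add_zero _).symm
          · exact (add_zero _).symm
        show B z.1 ((a.1 + b.1, 0, 0) : EE E0 I) = B z.1 (a.1, 0, 0) + B z.1 (b.1, 0, 0)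
        rw [h, map_add]
      map_smul' := fun c a => by
        refine LinearMap.ext fun z => ?_
        have h : ((c • a.1, 0, 0) : EE E0 I) = c • (a.1, 0, 0) := by
          refine Prod.ext rfl (Prod.ext ?_ ?_)
          · exact (smul_zero _).symm
          · exact (smul_zero _).symm
        show B z.1 ((c • a.1, 0, 0) : EE E0 I) = c • B z.1 (a.1, 0, 0)
        rw [h, map_smul] }
  have hL : ∀ e (z : (YP I True AY : Submodule (ZMod 2) (EE E0 I))),
      L e z = B z.1 (e.1, 0, 0) := fun _ _ => rfl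
  have inj : Function.Injective L := by
    rw [← LinearMap.ker_eq_bot, LinearMap.ker_eq_bot']
    intro e he
    have h1 : ∀ z ∈ (YP I True AY : Submodule (ZMod 2) (EE E0 I)), B z (e.1, 0, 0) = 0 := by
      intro z hz
      have := LinearMap.congr_fun he ⟨z, hz⟩
      exact this
    have h2 : ∀ z ∈ (XP I True AX : Submodule (ZMod 2) (EE E0 I)), B z (e.1, 0, 0) = 0 := by
      intro z hz
      exact hS.xx z hz _ (mem_XP.2 ⟨e.2, rfl⟩)
    have h3 : ∀ z : EE E0 I, B z (e.1, 0, 0) = 0 := by
      intro z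
      have hz : z.1 ∈ AX ⊔ AY := by
        rw [hS.cpl.sup_eq_top]; exact Submodule.mem_top
      obtain ⟨a, ha, b, hb, hab⟩ := Submodule.mem_sup.1 hz
      have hz2 : z = ((a, z.2.1, 0) : EE E0 I) + (b, 0, z.2.2) := by
        refine Prod.ext hab.symm (Prod.ext ?_ ?_)
        · exact (add_zero _).symm
        · exact (zero_add _).symm
      rw [hz2, map_add, LinearMap.add_apply, h2 _ (mem_XP.2 ⟨ha, rfl⟩),
        h1 _ (mem_YP.2 ⟨hb, rfl⟩), add_zero]
    have h4 : e.1 = 0 := by
      refine hna e.1 (fun w => ?_) fun k => ⟨?_, ?_⟩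
      · rw [symB hB]; exact h3 _
      · rw [symB hB]; exact h3 _
      · rw [symB hB]; exact h3 _
    exact Subtype.ext h4
  have h1 := Subspace.finrank_add_finrank_dualCoannihilator_eq (LinearMap.range L)
  rw [LinearMap.finrank_range_of_inj inj, fr_YP, hS.dim] at h1
  have h2 : finrank (ZMod 2) (LinearMap.range L).dualCoannihilator = Fintype.card I := by omega
  have h3 := Module.card_eq_pow_finrank (K := ZMod 2) (V := (LinearMap.range L).dualCoannihilator)
  rw [h2, ZMod.card] at h3
  rw [← h3, ← Fintype.card_coe]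
  refine Fintype.card_le_of_injective (fun z => ⟨⟨z.1, (mem_filter.1 z.2).2.1⟩, ?_⟩) ?_
  · rw [Submodule.mem_dualCoannihilator]
    rintro _ ⟨e, rfl⟩
    rw [hL]
    exact (mem_filter.1 z.2).2.2 _ e.2
  · intro z w h
    have h' := congrArg (fun x => x.1.1) h
    exact Subtype.ext h'

end

theorem t_MO2 (hSR : S_SR) : S_MO2 := by
  intro E0 _ _ _ I _ _ B AX AY hB hS hna
  set T := univ.filter fun z : EE E0 I => (z ∈ YP I True AY ∧ ∀ w ∈ AX, B z (w, 0, 0) = 0) ∧
    z.2.2 ≠ 0 with hT
  have c0 : (T.card : ℝ) ≤ 1 * 2 ^ Fintype.card I := by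
    rw [one_mul]
    have : T.card ≤ 2 ^ Fintype.card I := le_trans (card_le_card fun z hz => by
      rw [hT, mem_filter] at hz
      exact mem_filter.2 ⟨mem_univ _, hz.2.1⟩) (card_T hB hS hna)
    exact_mod_cast this
  obtain ⟨P, hP⟩ : ∃ P : Sy I → EE E0 I → Prop, ∀ s z, P s z ↔
      ∀ k, ∑ l, s.1 k l * z.2.2 l = B z (fx k) := ⟨_, fun _ _ => Iff.rfl⟩
  have u0 := ub2 T P c0 2 rfl
    (fun z hz => by
      rw [hT, mem_filter] at hz
      have h1 := sy1 hz.2.2 univ (fun k hk => absurd (mem_univ k) hk) fun k => B z (fx k)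
      rw [card_univ] at h1
      refine le_trans (Nat.mul_le_mul_right _ (card_le_card fun s hs => ?_)) h1
      rw [mem_filter] at hs ⊢
      exact ⟨hs.1, fun k _ => (hP s z).1 hs.2 k⟩)
  have hs : ∀ s : Sy I, (2 : ℝ) ^ (dR B s univ / 2) ≤ 1 +
      ((T.filter fun z => P s z).card : ℝ) := by
    intro s
    have h1 := (hSR E0 I B AX AY s hB hS).2.2
    have h2 : dR B s univ / 2 = finrank (ZMod 2) (KY B s True AY) := by omega
    have h3 := Module.card_eq_pow_finrank (K := ZMod 2) (V := KY B s True AY)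
    rw [ZMod.card] at h3
    have h4 : (2 : ℕ) ^ (dR B s univ / 2) =
        (univ.filter fun z : EE E0 I => z ∈ KY B s True AY).card := by
      rw [h2, ← h3, ← Fintype.card_subtype]
    have h5 : (univ.filter fun z : EE E0 I => z ∈ KY B s True AY) ⊆
        {0} ∪ (T.filter fun z => P s z) := by
      intro z hz
      have hz := (mem_filter.1 hz).2
      obtain ⟨hz1, hz2⟩ := hz
      have hz1' : ∀ w : EE E0 I, (B + sB s.1 : EE E0 I →ₗ[ZMod 2] EE E0 I →ₗ[ZMod 2] ZMod 2) z w = 0 :=
        fun w => hz1.2 w fun k hk => absurd (mem_univ k) hk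
      obtain ⟨hy1, hy2⟩ := mem_YP.1 hz2
      have e1 : ∀ w : E0, B z (w, 0, 0) = 0 := by
        intro w
        have h := hz1' (w, 0, 0)
        rw [LinearMap.add_apply, LinearMap.add_apply, sB_apply] at h
        have h0 : ∑ k, ∑ l, s.1 k l * (z.2.1 k * ((w, 0, 0) : EE E0 I).2.2 l +
            ((w, 0, 0) : EE E0 I).2.1 k * z.2.2 l) = 0 := by
          refine sum_eq_zero fun k _ => sum_eq_zero fun l _ => ?_
          show s.1 k l * (z.2.1 k * 0 + 0 * z.2.2 l) = 0
          rw [mul_zero, zero_mul, add_zero, mul_zero]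
        rw [h0, add_zero] at h
        exact h
      have e2 : ∀ k, ∑ l, s.1 k l * z.2.2 l = B z (fx k) := by
        intro k
        have h := hz1' (fx k)
        rw [LinearMap.add_apply, LinearMap.add_apply, sB_fx] at h
        have e : ∀ a b : ZMod 2, a + b = 0 → b = a := by decide
        exact e _ _ h
      have e3 : ∀ k, ∑ l, s.1 k l * z.2.1 l = B z (fy k) := by
        intro k
        have h := hz1' (fy k)
        rw [LinearMap.add_apply, LinearMap.add_apply, sB_fy s.2] at h
        have e : ∀ a b : ZMod 2, a + b = 0 → b = a := by decide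
        exact e _ _ h
      rw [mem_union, mem_singleton, mem_filter]
      by_cases hy : z.2.2 = 0
      · left
        have hz3 : z = ((z.1, 0, 0) : EE E0 I) := Prod.ext rfl (Prod.ext hy2 hy)
        have h0 : z.1 = 0 := by
          refine hna z.1 (fun w => ?_) fun k => ⟨?_, ?_⟩
          · rw [← hz3]; exact e1 w
          · rw [← hz3, ← e2 k]
            refine sum_eq_zero fun l _ => ?_
            rw [hy, Pi.zero_apply, mul_zero]
          · rw [← hz3, ← e3 k]
            refine sum_eq_zero fun l _ => ?_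
            rw [hy2, Pi.zero_apply, mul_zero]
        rw [hz3, h0]
        rfl
      · right
        refine ⟨?_, (hP s z).2 e2⟩
        rw [hT, mem_filter]
        exact ⟨mem_univ _, ⟨hz2, fun w _ => e1 w⟩, hy⟩
    have h6 := (card_le_card h5).trans (card_union_le _ _)
    rw [← h4, card_singleton] at h6
    exact_mod_cast h6
  calc ∑ s : Sy I, (2 : ℝ) ^ (dR B s univ / 2) ≤ ∑ s : Sy I, (1 +
      ((T.filter fun z => P s z).card : ℝ)) := sum_le_sum fun s _ => hs s
    _ = Fintype.card (Sy I) + ∑ s : Sy I, ((T.filter fun z => P s z).card : ℝ) := by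
        rw [sum_add_distrib, sum_const, card_univ, nsmul_eq_mul, mul_one]
    _ ≤ Fintype.card (Sy I) + (2 : ℕ) * 1 * Fintype.card (Sy I) := by
        have := u0
        linarith
    _ ≤ 30 * Fintype.card (Sy I) := by
        have : (0 : ℝ) ≤ Fintype.card (Sy I) := Nat.cast_nonneg _
        push_cast
        linarith

end Pool.Agent.H339.JX
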